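import Pool.Agent.H27.L1.H34.GA.Targets1
import Pool.Agent.H27.L1.H47.GU.OSU

/-!
Board ga, row OSA: the convolution of a cusp form is small where a gap is large (adapted from
Pool/Agent/H47/GU/OSU.lean).
-/

namespace Pool.Agent.H27.L1.H13.GA

open MeasureTheory Pool.Agent.H27.L1.H34.GM Pool.Agent.H27.L1.H34.GZ Pool.Agent.H27.L1.H34.GU Pool.Agent.H27.L1.H34.GA
open Pool.Agent.H27.L1.H47.GU (vol_box cont_mt cont_det meas_Zc cont_inv det_inv_ne det_ne_of_Zc det_Sgl
  nk_cont)

theorem osa_aN_cont (m : ℕ) : Continuous fun z : V m => aN (mt z) := by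
  unfold aN
  exact (cont_det m).abs.rpow_const (fun z => Or.inr (by positivity))

theorem osa_shell_meas (m : ℕ) : MeasurableSet (Shell m) :=
  (measurableSet_le measurable_const (osa_aN_cont m).measurable).inter
    (measurableSet_lt (osa_aN_cont m).measurable measurable_const)

theorem osa_shell_det {m : ℕ} (hm : 1 ≤ m) {z : V m} (hz : z ∈ Shell m) : (mt z).det ≠ 0 := by
  intro h0
  have h1 := hz.1
  unfold aN at h1
  rw [h0, abs_zero, Real.zero_rpow (by positivity)] at h1
  linarith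

theorem osa_sz_smul {m : ℕ} (c : ℝ) (z : Mat m) : sz (c • z) = |c| * sz z := by
  unfold sz
  have : (fun i j => (c • z) i j : V m) = c • (fun i j => z i j : V m) := rfl
  rw [this, norm_smul, Real.norm_eq_abs]

theorem osa_aN_mul {m : ℕ} (z c : Mat m) (hc : c.det = 1) : aN (z * c) = aN z := by
  unfold aN
  rw [Matrix.det_mul, hc, mul_one]

theorem osa_aN_pow {m : ℕ} (hm : 1 ≤ m) (z : Mat m) : aN z ^ m = |z.det| := by
  unfold aN
  rw [← Real.rpow_natCast, ← Real.rpow_mul (abs_nonneg _), one_div_mul_cancel, Real.rpow_one]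
  exact_mod_cast (by omega : m ≠ 0)

theorem osa_sn {m : ℕ} (b : Mat m → ℂ) (hb : Continuous b) :
    ContinuousOn (fun z : V m => b ((1⁻¹ * (aN (mt z))⁻¹) • mt z)) {z | (mt z).det ≠ 0} := by
  refine hb.comp_continuousOn ?_
  have h1 : ContinuousOn (fun z : V m => (1 : ℝ)⁻¹ * (aN (mt z))⁻¹) {z | (mt z).det ≠ 0} := by
    refine continuousOn_const.mul ((osa_aN_cont m).continuousOn.inv₀ ?_)
    intro z hz
    have hz' : (mt z).det ≠ 0 := hz
    unfold aN
    exact (Real.rpow_pos_of_pos (abs_pos.2 hz') _).ne'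
  exact h1.smul (cont_mt m).continuousOn

theorem osa_sfin (m : ℕ) : SFinite (hm m) := by
  unfold hm
  infer_instance

theorem osa_cancel {m : ℕ} (b c z : Mat m) (hc : IsUnit c.det) :
    b * c * (z * c)⁻¹ = b * z⁻¹ := by
  rw [Matrix.mul_inv_rev, ← Matrix.mul_assoc, Matrix.mul_assoc b c, Matrix.mul_nonsing_inv c hc,
    Matrix.mul_one]

/-- integrability on the shell -/
theorem osa_intg (har : T_HAR) {m : ℕ} (h1 : 1 ≤ m) (f : V m → ℂ)
    (hf : ContinuousOn f {z | (mt z).det ≠ 0}) (M c : ℝ) (hc : 0 < c) (hM0 : 0 ≤ M)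
    (hM : ∀ z ∈ Shell m, ‖f z‖ ≤ M) (hs : ∀ z ∈ Shell m, f z ≠ 0 → z ∈ Zc m c) :
    IntegrableOn f (Shell m) (hm m) := by
  have hfin : hm m (Zc m c) < ⊤ := (har m h1).2.2.2 c hc
  have h2 : Integrable (Set.indicator (Zc m c) (fun _ : V m => M)) (hm m) := by
    rw [integrable_indicator_iff (meas_Zc m c)]
    exact integrableOn_const hfin.ne
  have h3 : AEStronglyMeasurable f ((hm m).restrict (Shell m)) :=
    (hf.mono fun z hz => osa_shell_det h1 hz).aestronglyMeasurable (osa_shell_meas m)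
  refine Integrable.mono' (h2.restrict (s := Shell m)) h3 ?_
  filter_upwards [ae_restrict_mem (osa_shell_meas m)] with z hz
  by_cases h0 : f z = 0
  · rw [h0, norm_zero]
    exact Set.indicator_nonneg (fun w _ => hM0) z
  · rw [Set.indicator_of_mem (hs z hz h0)]
    exact hM z hz

/-- change of the variable on the shell -/
theorem osa_change (hac : T_HAC) {m : ℕ} (h1 : 1 ≤ m) (c : Mat m) (hc : c.det = 1)
    (f : V m → ℂ) :
    ∫ z in Shell m, f (fun i j => (mt z * c) i j) ∂(hm m) = ∫ z in Shell m, f z ∂(hm m) := by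
  have hc0 : c.det ≠ 0 := by
    rw [hc]
    exact one_ne_zero
  rw [← integral_indicator (osa_shell_meas m), ← integral_indicator (osa_shell_meas m),
    ← ((hac m h1).1 c hc0 (Set.indicator (Shell m) f)).2]
  congr 1
  funext z
  have h3 : (mt (fun i j => (mt z * c) i j) : Mat m) = mt z * c := rfl
  have h2 : ((fun i j => (mt z * c) i j) : V m) ∈ Shell m ↔ z ∈ Shell m := by
    show (1 ≤ aN (mt (fun i j => (mt z * c) i j)) ∧ _) ↔ (1 ≤ aN (mt z) ∧ _)
    rw [h3, osa_aN_mul _ _ hc]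
  by_cases hz : z ∈ Shell m
  · rw [Set.indicator_of_mem hz, Set.indicator_of_mem (h2.2 hz)]
  · rw [Set.indicator_of_notMem hz, Set.indicator_of_notMem (fun h => hz (h2.1 h))]

theorem pf_OSA (hbia : T_BIA) (hlpi : T_LPI) (hcub : Pool.Agent.H27.L1.H34.GZ.T_CUB) (hac : T_HAC)
    (har : T_HAR) : T_OSA := by
  intro m χ h1 hχ
  obtain ⟨C1, hC1, hB⟩ := hbia m χ h1 hχ
  obtain ⟨Bu, hBu, hU⟩ := hcub m
  obtain ⟨CL, hCL, hL⟩ := hlpi m χ Bu h1 hχ hBu
  have hCL0 : 0 < CL := lt_of_lt_of_le one_pos hCL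
  have he1 : 1 ≤ Real.exp 1 := Real.one_le_exp zero_le_one
  have he0 : 0 < Real.exp 1 := Real.exp_pos 1
  set C : ℝ := Real.exp 1 * CL with hCdef
  have hC0 : 0 < C := mul_pos he0 hCL0
  have hCLC : CL ≤ C := by
    rw [hCdef]
    nlinarith
  refine ⟨C, 1, hCL.trans hCLC, ?_⟩
  intro q _ T F lam hq hF δ hδ hδ2 b n a k hS i j hij hqa x
  have hb : b.det ≠ 0 := det_Sgl hS
  obtain ⟨hT, hB2⟩ := hB δ hδ hδ2
  set φ : Mat m → ℂ := bi m χ δ with hφdef
  have hφc : Continuous φ := hT.toTg.cont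
  have hφ1 : ∀ z, ‖φ z‖ ≤ 1 := fun z => (hB2 z).1
  obtain ⟨M, hM⟩ := hF.bdd
  have hM0 : 0 ≤ M := (norm_nonneg _).trans (hM b x hb)
  set ψ : V m → ℂ := fun z => φ ((1⁻¹ * (aN (mt z))⁻¹) • mt z) with hψ
  have hψc : ContinuousOn ψ {z | (mt z).det ≠ 0} := osa_sn φ hφc
  -- the gap
  have haj : 0 < a j := hS.pos j
  have hai : 0 < a i := hS.pos i
  have hq0 : (0 : ℝ) < q := by
    have : 0 < q := by omega
    exact_mod_cast this
  set τ : ℝ := q * a i / a j with hτ
  have hτ0 : 0 ≤ τ := by positivity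
  have hτ1 : τ ≤ 1 := by
    rw [hτ, div_le_one haj]
    exact hqa
  have hA0 : 0 ≤ CL * δ⁻¹ * τ := by positivity
  set I : ENNReal := ∫⁻ z in Zc m C, ENNReal.ofReal ‖F (b * (mt z)⁻¹) x‖ ∂(hm m) with hI
  -- the support
  have hzc : ∀ z ∈ Shell m, sz ((1⁻¹ * (aN (mt z))⁻¹) • mt z) ≤ CL → z ∈ Zc m C := by
    intro z hz hsz
    have e1 : 0 < aN (mt z) := lt_of_lt_of_le one_pos hz.1
    rw [osa_sz_smul, inv_one, one_mul, abs_of_pos (inv_pos.2 e1)] at hsz
    refine ⟨?_, ?_⟩
    · have e2 : sz (mt z) = aN (mt z) * ((aN (mt z))⁻¹ * sz (mt z)) := by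
        field_simp
      rw [e2, hCdef]
      exact mul_le_mul hz.2.le hsz (mul_nonneg (inv_nonneg.2 e1.le) (norm_nonneg _)) he0.le
    · have e3 : 1 ≤ |(mt z).det| := by
        rw [← osa_aN_pow h1]
        exact one_le_pow₀ hz.1
      exact (inv_le_one_of_one_le₀ (hCL.trans hCLC)).trans e3
  have hFb : ∀ z ∈ Shell m, ‖F (b * (mt z)⁻¹) x‖ ≤ M := by
    intro z hz
    apply hM
    rw [Matrix.det_mul]
    exact mul_ne_zero hb (det_inv_ne _ (osa_shell_det h1 hz))
  have hFc : ∀ w : Mat m, w.det ≠ 0 →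
      ContinuousOn (fun z : V m => F (w * (mt z)⁻¹) x) {z | (mt z).det ≠ 0} := by
    intro w hw
    refine (hF.cont x).comp (continuousOn_const.mul (cont_inv m)) ?_
    intro z hz
    show (w * (mt z)⁻¹).det ≠ 0
    rw [Matrix.det_mul]
    exact mul_ne_zero hw (det_inv_ne _ hz)
  have hIfin : I ≠ ⊤ := by
    have hfin : hm m (Zc m C) < ⊤ := (har m h1).2.2.2 C hC0
    have h2 : I ≤ ENNReal.ofReal M * hm m (Zc m C) := by
      rw [← setLIntegral_const]
      apply setLIntegral_mono' (meas_Zc m C)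
      intro z hz
      apply ENNReal.ofReal_le_ofReal
      apply hM
      rw [Matrix.det_mul]
      exact mul_ne_zero hb (det_inv_ne _ (det_ne_of_Zc hC0 hz))
    exact (lt_of_le_of_lt h2 (ENNReal.mul_lt_top ENNReal.ofReal_lt_top hfin)).ne
  -- one translate
  have hR : ∀ g : Mat m, Rr φ 1 F g x = ∫ z in Shell m, ψ z * F (g * (mt z)⁻¹) x ∂(hm m) :=
    fun g => rfl
  have hdiff : ∀ u ∈ Set.Icc (0 : V m) 1,
      ‖Rr φ 1 F b x - Rr φ 1 F ((1 + (q : ℝ) • nk j u) * b) x‖ ≤ CL * δ⁻¹ * τ * I.toReal := by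
    intro u hu
    obtain ⟨e1, e2, e3⟩ := hU q b n a k hS i j hij u hu
    set c : Mat m := b⁻¹ * (1 + (q : ℝ) • nk j u) * b with hcdef
    have hcu : IsUnit c.det := by
      rw [e2]
      exact isUnit_one
    have hl := fun z : Mat m => hL δ hδ hδ2 z c τ e2 hτ0 hτ1 e3
    have g1 : Rr φ 1 F (b * c) x =
        ∫ z in Shell m, φ (((1⁻¹ * (aN (mt z))⁻¹) • mt z) * c) * F (b * (mt z)⁻¹) x ∂(hm m) := by
      rw [hR, ← osa_change hac h1 c e2]
      congr 1
      funext z
      have h3 : (mt (fun i j => (mt z * c) i j) : Mat m) = mt z * c := rfl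
      simp only [hψ]
      rw [h3, osa_aN_mul _ _ e2, osa_cancel b c _ hcu, Matrix.smul_mul]
    have hc2 : ContinuousOn (fun z : V m => φ (((1⁻¹ * (aN (mt z))⁻¹) • mt z) * c))
        {z | (mt z).det ≠ 0} :=
      osa_sn (fun w => φ (w * c)) (hφc.comp (continuous_id.mul continuous_const))
    have i1 : IntegrableOn (fun z : V m => ψ z * F (b * (mt z)⁻¹) x) (Shell m) (hm m) := by
      refine osa_intg har h1 _ (hψc.mul (hFc b hb)) M C hC0 hM0 ?_ ?_
      · intro z hz
        rw [norm_mul]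
        exact (mul_le_mul (hφ1 _) (hFb z hz) (norm_nonneg _) zero_le_one).trans
          (one_mul M).le
      · intro z hz h0
        exact hzc z hz ((hl _).2 (Or.inl (left_ne_zero_of_mul h0))).1
    have i2 : IntegrableOn (fun z : V m => φ (((1⁻¹ * (aN (mt z))⁻¹) • mt z) * c) *
        F (b * (mt z)⁻¹) x) (Shell m) (hm m) := by
      refine osa_intg har h1 _ (hc2.mul (hFc b hb)) M C hC0 hM0 ?_ ?_
      · intro z hz
        rw [norm_mul]
        exact (mul_le_mul (hφ1 _) (hFb z hz) (norm_nonneg _) zero_le_one).trans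
          (one_mul M).le
      · intro z hz h0
        exact hzc z hz ((hl _).2 (Or.inr (left_ne_zero_of_mul h0))).1
    rw [e1, g1, hR, ← integral_sub i1 i2]
    refine (norm_integral_le_lintegral_norm _).trans ?_
    have hle : ∫⁻ z in Shell m, ENNReal.ofReal ‖ψ z * F (b * (mt z)⁻¹) x -
        φ (((1⁻¹ * (aN (mt z))⁻¹) • mt z) * c) * F (b * (mt z)⁻¹) x‖ ∂(hm m) ≤
        ENNReal.ofReal (CL * δ⁻¹ * τ) * I := by
      rw [hI, ← lintegral_const_mul' _ _ ENNReal.ofReal_ne_top,
        ← lintegral_indicator (meas_Zc m C), ← lintegral_indicator (osa_shell_meas m)]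
      apply lintegral_mono
      intro z
      show _ ≤ _
      by_cases hz : z ∈ Shell m
      · rw [Set.indicator_of_mem hz]
        by_cases hz2 : z ∈ Zc m C
        · rw [Set.indicator_of_mem hz2, ← ENNReal.ofReal_mul hA0, ← sub_mul, norm_mul]
          exact ENNReal.ofReal_le_ofReal
            (mul_le_mul_of_nonneg_right (hl _).1 (norm_nonneg _))
        · rw [Set.indicator_of_notMem hz2]
          have h2 : ψ z = 0 := by
            by_contra h0
            exact hz2 (hzc z hz ((hl _).2 (Or.inl h0)).1)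
          have h3 : φ (((1⁻¹ * (aN (mt z))⁻¹) • mt z) * c) = 0 := by
            by_contra h0
            exact hz2 (hzc z hz ((hl _).2 (Or.inr h0)).1)
          rw [h2, h3, zero_mul, sub_zero, norm_zero, ENNReal.ofReal_zero]
      · rw [Set.indicator_of_notMem hz]
        exact bot_le
    have h5 := ENNReal.toReal_mono (ENNReal.mul_lt_top ENNReal.ofReal_lt_top
      (lt_top_iff_ne_top.2 hIfin)).ne hle
    rw [ENNReal.toReal_mul, ENNReal.toReal_ofReal hA0] at h5
    exact h5
  -- the determinant of the unipotent matrices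
  have hdetu : ∀ u : V m, (1 + (q : ℝ) • nk (m := m) j u).det = 1 := by
    intro u
    have hlow : ∀ s t : Fin m, s < t → (1 + (q : ℝ) • nk (m := m) j u) s t = 0 := by
      intro s t hst
      have h2 : ¬ ((t : ℕ) < (j : ℕ) ∧ (j : ℕ) ≤ (s : ℕ)) := by
        intro h3
        have h4 : (s : ℕ) < (t : ℕ) := hst
        omega
      have h3 : nk (m := m) (j : ℕ) u s t = 0 := if_neg h2
      show (1 : Mat m) s t + (q : ℝ) * nk (m := m) (j : ℕ) u s t = 0
      rw [h3, Matrix.one_apply_ne hst.ne, mul_zero, add_zero]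
    rw [Matrix.det_of_isLowerTriangular _ (fun s t hst => hlow s t hst)]
    apply Finset.prod_eq_one
    intro s _
    have h2 : ¬ ((s : ℕ) < (j : ℕ) ∧ (j : ℕ) ≤ (s : ℕ)) := by omega
    have h3 : nk (m := m) (j : ℕ) u s s = 0 := if_neg h2
    show (1 : Mat m) s s + (q : ℝ) * nk (m := m) (j : ℕ) u s s = 1
    rw [h3, Matrix.one_apply_eq, mul_zero, add_zero]
  -- Fubini
  have hsf : SFinite (hm m) := osa_sfin m
  set ν : Measure (V m) := (volume : Measure (V m)).restrict (Set.Icc (0 : V m) 1) with hν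
  set μ2 : Measure (V m) := (hm m).restrict (Shell m) with hμ2
  have hνu : ν Set.univ = 1 := by
    rw [hν, Measure.restrict_apply_univ, vol_box]
  have hνf : IsFiniteMeasure ν := ⟨by rw [hνu]; exact ENNReal.one_lt_top⟩
  have hFub : Integrable (fun p : V m × V m =>
      ψ p.2 * F ((1 + (q : ℝ) • nk j p.1) * b * (mt p.2)⁻¹) x) (ν.prod μ2) := by
    have hae : ∀ᵐ p ∂(ν.prod μ2), p.2 ∈ Shell m :=
      (Measure.quasiMeasurePreserving_snd (μ := ν) (ν := μ2)).ae
        (ae_restrict_mem (osa_shell_meas m))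
    have hSm : MeasurableSet {p : V m × V m | p.2 ∈ Shell m} :=
      measurable_snd (osa_shell_meas m)
    have hco : ContinuousOn (fun p : V m × V m =>
        ψ p.2 * F ((1 + (q : ℝ) • nk j p.1) * b * (mt p.2)⁻¹) x)
        {p : V m × V m | p.2 ∈ Shell m} := by
      refine ContinuousOn.mul ?_ ?_
      · refine hψc.comp continuousOn_snd ?_
        intro p hp
        exact osa_shell_det h1 hp
      · refine (hF.cont x).comp ?_ ?_
        · refine ContinuousOn.mul ?_ ?_
          · have h3 : Continuous fun p : V m × V m => nk (m := m) (j : ℕ) p.1 :=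
              (nk_cont m (j : ℕ)).comp continuous_fst
            have h4 : Continuous fun p : V m × V m =>
                (1 + (q : ℝ) • nk (m := m) j p.1) * b := by fun_prop
            exact h4.continuousOn
          · refine (cont_inv m).comp continuousOn_snd ?_
            intro p hp
            exact osa_shell_det h1 hp
        · intro p hp
          show ((1 + (q : ℝ) • nk (m := m) j p.1) * b * (mt p.2)⁻¹).det ≠ 0
          rw [Matrix.det_mul, Matrix.det_mul, hdetu, one_mul]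
          exact mul_ne_zero hb (det_inv_ne _ (osa_shell_det h1 hp))
    have hms : AEStronglyMeasurable (fun p : V m × V m =>
        ψ p.2 * F ((1 + (q : ℝ) • nk j p.1) * b * (mt p.2)⁻¹) x) (ν.prod μ2) := by
      have h2 := hco.aestronglyMeasurable (μ := ν.prod μ2) hSm
      have h3 : (ν.prod μ2).restrict {p : V m × V m | p.2 ∈ Shell m} = ν.prod μ2 :=
        Measure.restrict_eq_self_of_ae_mem hae
      rwa [h3] at h2
    have hZm : MeasurableSet {p : V m × V m | p.2 ∈ Zc m C} := measurable_snd (meas_Zc m C)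
    have hfinZ : (ν.prod μ2) {p : V m × V m | p.2 ∈ Zc m C} ≠ ⊤ := by
      have h2 : {p : V m × V m | p.2 ∈ Zc m C} = Set.univ ×ˢ Zc m C := by
        ext p
        simp
      rw [h2, Measure.prod_prod, hνu, one_mul]
      exact (lt_of_le_of_lt (Measure.restrict_apply_le _ _) ((har m h1).2.2.2 C hC0)).ne
    have hdom : Integrable (Set.indicator {p : V m × V m | p.2 ∈ Zc m C}
        (fun _ : V m × V m => M)) (ν.prod μ2) := by
      rw [integrable_indicator_iff hZm]
      exact integrableOn_const hfinZ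
    refine hdom.mono' hms ?_
    filter_upwards [hae] with p hp
    by_cases h0 : ψ p.2 = 0
    · rw [h0, zero_mul, norm_zero]
      exact Set.indicator_nonneg (fun w _ => hM0) p
    · have hz2 : p ∈ {p : V m × V m | p.2 ∈ Zc m C} := by
        have h2 := hL δ hδ hδ2 ((1⁻¹ * (aN (mt p.2))⁻¹) • mt p.2) 1 0 Matrix.det_one le_rfl
          zero_le_one (by
            have e0 : sz ((1 : Mat m) - 1) = 0 := by
              rw [sub_self]
              exact norm_zero (E := V m)
            rw [e0, mul_zero])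
        exact hzc p.2 hp (h2.2 (Or.inl h0)).1
      rw [Set.indicator_of_mem hz2, norm_mul]
      refine (mul_le_mul (hφ1 _) (hM _ x ?_) (norm_nonneg _) zero_le_one).trans (one_mul M).le
      rw [Matrix.det_mul, Matrix.det_mul, hdetu, one_mul]
      exact mul_ne_zero hb (det_inv_ne _ (osa_shell_det h1 hp))
  have hzero : ∫ u in Set.Icc (0 : V m) 1, Rr φ 1 F ((1 + (q : ℝ) • nk j u) * b) x = 0 := by
    have h2 := integral_integral_swap (μ := ν) (ν := μ2)
      (f := fun u z => ψ z * F ((1 + (q : ℝ) • nk j u) * b * (mt z)⁻¹) x) hFub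
    have h3 : ∫ u in Set.Icc (0 : V m) 1, Rr φ 1 F ((1 + (q : ℝ) • nk j u) * b) x =
        ∫ z, ∫ u, ψ z * F ((1 + (q : ℝ) • nk j u) * b * (mt z)⁻¹) x ∂ν ∂μ2 := h2
    rw [h3]
    have h4 : ∀ᵐ z ∂μ2, ∫ u, ψ z * F ((1 + (q : ℝ) • nk j u) * b * (mt z)⁻¹) x ∂ν = 0 := by
      filter_upwards [ae_restrict_mem (osa_shell_meas m)] with z hz
      rw [integral_const_mul]
      have h5 := hF.cusp (j : ℕ) (by omega) j.2 (b * (mt z)⁻¹) x (by
        rw [Matrix.det_mul]
        exact mul_ne_zero hb (det_inv_ne _ (osa_shell_det h1 hz)))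
      have h6 : ∫ u, F ((1 + (q : ℝ) • nk j u) * b * (mt z)⁻¹) x ∂ν = 0 := by
        rw [← h5]
        congr 1
        funext u
        rw [Matrix.mul_assoc]
      rw [h6, mul_zero]
    rw [integral_congr_ae h4, integral_zero]
  have hRi : Integrable (fun u : V m => Rr φ 1 F ((1 + (q : ℝ) • nk j u) * b) x) ν :=
    hFub.integral_prod_left
  -- the average
  have hFP : ‖Rr φ 1 F b x‖ ≤ CL * δ⁻¹ * τ * I.toReal := by
    have h2 : ∫ u in Set.Icc (0 : V m) 1,
        (Rr φ 1 F b x - Rr φ 1 F ((1 + (q : ℝ) • nk j u) * b) x) = Rr φ 1 F b x := by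
      have i1 : Integrable (fun _ : V m => Rr φ 1 F b x) ν :=
        integrableOn_const (by rw [vol_box]; exact ENNReal.one_ne_top)
      rw [integral_sub i1 hRi, hzero, sub_zero, setIntegral_const,
        Measure.real, vol_box, ENNReal.toReal_one, one_smul]
    rw [← h2]
    have h3 := norm_setIntegral_le_of_norm_le_const (μ := (volume : Measure (V m)))
      (s := Set.Icc (0 : V m) 1) (f := fun u : V m =>
        Rr φ 1 F b x - Rr φ 1 F ((1 + (q : ℝ) • nk j u) * b) x)
      (by rw [vol_box]; exact ENNReal.one_lt_top) hdiff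
    rwa [Measure.real, vol_box, ENNReal.toReal_one, mul_one] at h3
  have hI0 : 0 ≤ I.toReal := ENNReal.toReal_nonneg
  have hpos : 0 ≤ C * δ⁻¹ ^ 1 * τ := by positivity
  calc ENNReal.ofReal ‖Rr φ 1 F b x‖ ≤ ENNReal.ofReal (CL * δ⁻¹ * τ * I.toReal) :=
        ENNReal.ofReal_le_ofReal hFP
    _ ≤ ENNReal.ofReal (C * δ⁻¹ ^ 1 * τ * I.toReal) := by
        apply ENNReal.ofReal_le_ofReal
        refine mul_le_mul_of_nonneg_right ?_ hI0
        rw [pow_one]
        refine mul_le_mul_of_nonneg_right ?_ hτ0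
        exact mul_le_mul_of_nonneg_right hCLC (inv_nonneg.2 hδ.le)
    _ = ENNReal.ofReal (C * δ⁻¹ ^ 1 * τ) * I := by
        rw [ENNReal.ofReal_mul hpos, ENNReal.ofReal_toReal hIfin]

end Pool.Agent.H27.L1.H13.GA
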